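import Pool.Agent.H504.BC.Del

/-!
# Deligne's conjecture in odd weight at the central points of affine cubic hypersurfaces

A relation `r` between the variables `x_1, …, x_n` is one of the equations `x_i x_j = x_l`,
`x_i + x_j = x_l`, `x_i = 1`, written `ρ_r = 0` (`relPoly`). For a finite non-empty set `s` of relations
let `F_s` be the polynomial `∑_{r ∈ s} t_r ρ_r(x_1, …, x_n)` (`relCub`), with one more variable `t_r` for
each `r ∈ s`. It has degree at most three and integral coefficients. Let `V_s` (`relHyp ℚ s`) be the affine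
hypersurface `F_s = 1`; its dimension is `|s| + n - 1`.

Let `F` be a number field, `C` the category of motives for absolute Hodge cycles over `ℚ` with
coefficients in `F`, `D` the weight graded pieces `D.H X w j = gr^W_w H^j_c(X)` as objects of `C`, and `T`
the data of Deligne's conjecture in odd weight (Hodge numbers, period matrices, values of `L`-functions).
Their known properties are the hypothesis `Known` of the theorem.

The conjecture for the motive `N` and the critical integer `c` is the conjecture `DeligneOdd T` for the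
Tate twist `N(c)` and the integer `0`. For a set `Φ` of Hodge types let `CaseOf T D Φ c X` be the conjecture
for the integer `c` and all direct summands `N` of the pieces `gr^W_w H^j_c(X)` such that the Hodge
types of `N(c)` are in `Φ`.

**Theorem.** Let `e` be an integer.

(1) For all sets `Φ` of Hodge types the following are equivalent:

* Deligne's conjecture for all motives `N` over `ℚ` with coefficients in `F`, of odd weight and with Hodge
  types in `Φ`, and the integer `0`;
* `CaseOf T D Φ c V_s` for all `c` and all `V_s` of dimension `2 c - 1 + e`;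
* `CaseOf T D Φ c V_s` for infinitely many `c` and all `V_s` of dimension `2 c - 1 + e`.

(2) There is one sequence of such hypersurfaces `V_m`, of dimension `2 c_m - 1 + e`, with `c_m ≥ m`, such
that `CaseOf T D Φ c_m V_m` for infinitely many `m` is sufficient, for all `Φ`. For every motive `N` the
conjecture follows from the case of one `V_m`, for all large `m`.

(3) For every affine scheme `X` of finite type over `ℚ`, every integer `q` and all large `c` there is a
`V_s` of dimension `2 c - 1 + e` such that `CaseOf T D Φ q X` is equivalent to `CaseOf T D Φ c V_s`, for all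
`Φ`, `F`, `C`.

(4) `F_s` has degree at most three and integral coefficients, and `F_s = 1` is smooth over every ring.

For `e = 0` the number `c` is the central point of the zeta function of `V_s`, the fixed point of
`s ↦ dim V_s + 1 - s`. So only one critical integer occurs for each hypersurface, the central one. If `Φ`
is the set of all types, (1) is about all motives of odd weight and all critical integers. If `Φ` is the set
of the types with `p + q = -1`, then (1) is about all motives and their central critical values, and only the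
summands of the pieces of weight `2 c - 1 = dim V_s` occur in `CaseOf T D Φ c V_s`.

Idea of the proof. If `X` is defined by the relations in `s`, then `V_s` is an affine bundle over the
complement of `X`. This relates the twist `q` of the motives of `X` and the twist `q + |s| - 1` of those of
`V_s`. Before that `X` is replaced by another scheme: quadrics `∑ x_l y_l = 1` over `X`, whose motives are
those of `X` and two twists, are used to change the difference of the dimension and of twice the integer.
The negative twists which occur do not matter because motives with effective Hodge types have no critical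
integers `≤ 0` in odd weight.
-/

set_option autoImplicit false

open CategoryTheory CategoryTheory.Limits AlgebraicGeometry Pool.Agent.Y116.UV Pool.Agent.Z125.UN
  Pool.Agent.Y101.Th Pool.Agent.Y691.TU Pool.Agent.H854.SQ Pool.Agent.H367.OS Pool.Agent.H504.BC

universe v u

namespace Pool.Agent.Results.MP_cd171c_nt.CentralPoint

section

variable {F : Type} [Field F] [NumberField F] {C : Type u} [Category.{v} C] [Abelian C]

/-- The known properties of motives, of the pieces of the cohomology with compact supports, and of the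
data of Deligne's conjecture: see `Semisimple`, `IsGraded`, `DisjointPieces`, `Gen`, `IsPeriods`,
`IsHodge`. -/
structure Known (T : Periods F C) (D : Graded ℚ C) : Prop where
  semisimple : Semisimple C
  twist : D.L.IsEquivalence
  graded : IsGraded D
  disjoint : DisjointPieces D
  generated : ∀ M : C, Gen D M
  periods : IsPeriods T D
  hodge : IsHodge T D

/-- Deligne's conjecture for the Tate twists `N(c)` of all direct summands `N` of the pieces
`gr^W_w H^j_c(X)`, for which all Hodge types of `N(c)` are in `Φ`. -/
def CaseOf (T : Periods F C) (D : Graded ℚ C) (Φ : Set (ℤ × ℤ)) (c : ℤ) (X : Sch ℚ) : Prop :=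
  ∀ (w j : ℤ) (N N' : C) (s : N ⟶ D.H X w j) (r : D.H X w j ⟶ N), s ≫ r = 𝟙 N →
    TwistBy D.L c N N' → (∀ p q : ℤ, T.hodge N' p q ≠ 0 → (p, q) ∈ Φ) → DeligneOdd T N'

/-- The conjecture for the integer `c` and all hypersurfaces `V_s` of dimension `2 c - 1 + e`. -/
def CaseOfDim (T : Periods F C) (D : Graded ℚ C) (Φ : Set (ℤ × ℤ)) (e : ℤ) (c : ℕ) : Prop :=
  ∀ (n : ℕ) (s : Finset (Rel (Fin n))), s.Nonempty → (s.card + n - 1 : ℤ) = 2 * c - 1 + e →
    CaseOf T D Φ c (relHyp ℚ s)

/-- The conjecture for the integer `0` and all motives in `C` of odd weight with Hodge types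
in `Φ`. -/
def AllIn (T : Periods F C) (Φ : Set (ℤ × ℤ)) : Prop :=
  ∀ N : C, (∀ p q : ℤ, T.hodge N p q ≠ 0 → (p, q) ∈ Φ) → DeligneOdd T N

end

/-- **Deligne's conjecture in odd weight at the central points of affine cubic hypersurfaces.** See
the explanations above. -/
theorem result (e : ℤ) :
    (∃ V : ℕ → Hyp, (∀ m, (V m).s.Nonempty ∧
      ((V m).s.card + (V m).n - 1 : ℤ) = 2 * (V m).c - 1 + e ∧ m ≤ (V m).c) ∧
      ∀ {F : Type} [Field F] [NumberField F] {C : Type u} [Category.{v} C] [Abelian C]
        {T : Periods F C} {D : Graded ℚ C}, Known T D →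
        (∀ Φ : Set (ℤ × ℤ), List.TFAE [∃ᶠ c in Filter.atTop, CaseOfDim T D Φ e c,
          ∀ c, CaseOfDim T D Φ e c, AllIn T Φ]) ∧
        (∀ Φ : Set (ℤ × ℤ), List.TFAE
          [∃ᶠ m in Filter.atTop, CaseOf T D Φ (V m).c (relHyp ℚ (V m).s),
          ∀ m, CaseOf T D Φ (V m).c (relHyp ℚ (V m).s), AllIn T Φ]) ∧
        (∀ N : C, ∃ m₀ : ℕ, ∀ m, m₀ ≤ m → ∀ Φ : Set (ℤ × ℤ),
          CaseOf T D Φ (V m).c (relHyp ℚ (V m).s) →
            (∀ p q : ℤ, T.hodge N p q ≠ 0 → (p, q) ∈ Φ) → DeligneOdd T N) ∧
        (AllIn T Set.univ ↔ ∀ N : C, DeligneOdd T N)) ∧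
    (∀ (B : Type) [CommRing B] [Algebra ℚ B] [Algebra.FiniteType ℚ B] (q : ℤ),
      ∃ c₀ : ℕ, ∀ c : ℕ, c₀ ≤ c → ∃ (n : ℕ) (s : Finset (Rel (Fin n))), s.Nonempty ∧
        (s.card + n - 1 : ℤ) = 2 * c - 1 + e ∧
        ∀ {F : Type} [Field F] [NumberField F] {C : Type u} [Category.{v} C] [Abelian C]
          {T : Periods F C} {D : Graded ℚ C}, Known T D → ∀ Φ : Set (ℤ × ℤ),
            (CaseOf T D Φ c (relHyp ℚ s) ↔ CaseOf T D Φ q (aff ℚ B))) ∧
    ∀ (n : ℕ) (s : Finset (Rel (Fin n))), (relCub ℤ s).totalDegree ≤ 3 ∧
      ∀ (R : Type) [CommRing R], MvPolynomial.map (Int.castRingHom R) (relCub ℤ s) = relCub R s ∧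
        Smooth (relHyp R s).hom := by
  refine ⟨?_, ?_, fun n s => ⟨totalDegree_relCub ℤ s, fun R _ => ⟨map_relCub _ s, smooth_relHyp R s⟩⟩⟩
  · obtain ⟨V, hV, hs⟩ := one_sequence ℚ isPrimeField_rat (e - 2)
    refine ⟨V, fun m => ⟨(hV m).1, ?_, (hV m).2.2⟩, ?_⟩
    · have h := (hV m).2.1
      omega
    intro F _ _ C _ _ T D h
    have heq := h.twist
    have hgood : ∀ Φ, Good D (DeligneIn T Φ) := fun Φ => good_in h.periods h.hodge
    have hseq : ∀ X : Sch ℚ, FT True X → ∀ q : ℤ, ∃ c₀ : ℕ, ∀ c, c₀ ≤ c → ∀ R, Good D R →
        TwAt D R (V c).c (relHyp ℚ (V c).s) → TwAt D R q X := by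
      intro X hX q
      obtain ⟨m₀, h1⟩ := hs X hX q
      exact ⟨m₀, fun m hm R hR h2 =>
        h1 m hm _ (hR.lined h.semisimple h.graded) (factors_twAt h.disjoint) h2⟩
    have hdim : ∀ X : Sch ℚ, FT True X → ∀ q : ℤ, ∃ c₀ : ℕ, ∀ c, c₀ ≤ c → ∀ R, Good D R →
        LineAt ℚ (TwAt D R) (e - 2) c → TwAt D R q X := by
      intro X hX q
      obtain ⟨c₀, h1⟩ := central_single isPrimeField_rat (e - 2) q X hX
      exact ⟨c₀, fun c hc R hR h2 => h1 c hc _ (hR.lined h.semisimple h.graded) h2⟩
    refine ⟨fun Φ => ?_, fun Φ => ?_, fun N => ?_, ?_⟩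
    · have h3 : ∀ c, CaseOfDim T D Φ e c ↔ LineAt ℚ (TwAt D (DeligneIn T Φ)) (e - 2) c := by
        intro c
        refine forall_congr' fun n => forall_congr' fun s => forall_congr' fun _ => ?_
        exact ⟨fun h hn => h (by omega), fun h hn => h (by omega)⟩
      have h4 := gen_tfae (S := fun R c => LineAt ℚ (TwAt D R) (e - 2) c) h.semisimple h.generated
        hdim (fun R hR c n s _ _ w j B B' _ _ _ _ => hR B') (hgood Φ)
      rw [Filter.frequently_congr (Filter.Eventually.of_forall h3), forall_congr' h3]
      exact h4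
    · exact gen_tfae (S := fun R m => TwAt D R (V m).c (relHyp ℚ (V m).s)) h.semisimple
        h.generated hseq (fun R hR m w j B B' _ _ _ _ => hR B') (hgood Φ)
    · obtain ⟨m₀, h1⟩ := gen_of (S := fun R m => TwAt D R (V m).c (relHyp ℚ (V m).s))
        h.semisimple hseq (h.generated N) 0
      exact ⟨m₀, fun m hm Φ h2 => (h1 m hm _ (hgood Φ) h2).self⟩
    · exact ⟨fun h N => h N fun _ _ _ => Set.mem_univ _, fun h N _ => h N⟩
  · intro B _ _ _ q
    obtain ⟨c₀, h⟩ := central isPrimeField_rat B (e - 2) q
    refine ⟨c₀, fun c hc => ?_⟩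
    obtain ⟨n, s, hs, hn, h1⟩ := h c hc
    refine ⟨n, s, hs, by omega, ?_⟩
    intro F _ _ C _ _ T D h Φ
    have heq := h.twist
    exact h1 _ ((good_in (Φ := Φ) h.periods h.hodge).lined h.semisimple h.graded)

end Pool.Agent.Results.MP_cd171c_nt.CentralPoint
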