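import Mathlib
import Pool.Agent.H508.W.A4
import Pool.Graph.R_pool_sql_team_seeded_35f281b4.Results.MP_26073e_nt.EveryForm

/-!
# Deligne's conjecture for every motive over `ℚ`, with coefficients in any number field, which becomes
# isomorphic over `F` to a sum of copies of `h¹(E)`, `E : y² + y = x³`

Let `M = ℚ(√-3)` or `M = ℚ(ζ₉)`, let `L/M` be ANY Galois extension whose degree is a power of two, in
which no prime of `M` ramifies that is not above `3` and modulo which `2` is a cube (there is no condition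
above `3`), and let `F ⊆ L` be ANY subfield which is Galois over `ℚ`.  Let `E : y² + y = x³`, let `T` be ANY
number field and let `N` be ANY motive over `ℚ` with coefficients in `T` which over `F` becomes
isomorphic to `h¹(E)^n ⊗ T` for some `n` (or a direct factor of such a motive; it is then of this form,
too).  It has rank `2 n` over `T` and weight one, and its only critical integer is the central point
`s = 1`; everything is the same for the Tate twists of `N`, whose weights are all the odd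
numbers.  We prove Q1 for `N`, unconditionally, with the analytic continuation and a nonzero value:

* for every embedding `τ` of `T` the function `L(N_τ, s)`, with all its Euler factors, continues to a
  meromorphic function on `ℂ`, which is analytic and NOT ZERO at `1`;
* `α⁺` is an isomorphism for `N(1)`, and there is `ℒ ∈ T` such that `L(N_τ, 1) = det(α⁺)_τ · τ(ℒ)` for all `τ`.

## The motives

We may assume that `F` contains a primitive cube root of unity `z` (as `F(z) ⊆ L`).  Then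
`End_F(h₁(E) ⊗ T) = T[ω]`, where `ω` is `(x, y) ↦ (z x, y)`; it is a field, or `T × T` if `T` contains the cube
roots of unity.  The element `σ` of `Gal(F/ℚ)` acts on `T[ω]` by the identity if `σ z = z` and by
`a + b ω ↦ a + b ω²` otherwise (the bar).  By Galois descent the motives over `ℚ` which become isomorphic to
`h₁(E)^n ⊗ T` over `F` are given by the cocycles `c` of `Gal(F/ℚ)` with values in `GL_n(T[ω])`,
`c(σ τ) = c(σ) σ(c(τ))` (`Cocycle`); call this motive `M_c`.  For instance its `ℓ`-adic realisation is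
`(V_ℓ(E) ⊗ T)^n`, on which `σ` acts by `x ↦ c(σ) σ(x)`.  We write `N` as the dual of `M_c`.

* Since `h¹(E)(1) = h₁(E)` by the polarization, for which `ω` and its bar are adjoint, `N(1)` is the motive
  `M_{c*}` for the dual cocycle `c*(σ) = (c(σ)†)⁻¹`, where `†` is the transposed of the bar.
* Examples: `h¹(E) ⊗ [ρ]` for ALL the Artin motives `[ρ]` over `ℚ` with coefficients in `T` which are
  split by `F`, monomial or not (`c(σ)` is the transposed of `ρ(σ⁻¹)`); `h¹(A)` for all the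
  abelian varieties `A` over `ℚ` which are isogenous to `E^n` over `F`, and the parts of `h¹(A) ⊗ T` which are
  cut out by the endomorphisms of `A`, such as the motives of the newforms of weight two with complex
  multiplication by `ℚ(√-3)`, and their tensor products with `[ρ]`; the restrictions of scalars of all
  such motives over the subfields of `F`, for instance of the Hecke characters of these fields of the type
  `ψ ∘ N · χ`.  For `M = ℚ(ζ₉)` there are cocycles which are not induced from characters, with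
  the images `SL₂(𝔽₃)` (tetrahedral), `GL₂(𝔽₃)` and many others.

## The Euler product

Let `v` be a prime number, `w` a prime of `F` above `v`, and `q = v`.  If `v = 3`, then the factor is `1`,
since `E` has additive reduction over `F` at `w` (library result `EveryArtinTwoExtensions`), and so
the inertia group of `w` has no invariants.  Let `v ≠ 3`; then `E` has good reduction at `v`, and the
inertia group of `v` acts trivially on `V_ℓ(E)`, which is the sum of two lines on which `ω` acts via the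
two embeddings `ω ↦ om`, `ω ↦ om'` in `ℂ`.  The Frobenius elements `σ` at `w` form a coset of the inertia
group, and the average over them is the projection to the invariants of inertia followed by a Frobenius
element.  If `q ≡ 1` modulo `3`, then they fix `z` and act on the two lines by the two images of `π`, where
`π` in `ℤ[ω]` is the Frobenius endomorphism of `E` modulo `w` (norm `q`, trace `q + 1 - #E(𝔽_q)`, and zero
modulo `w` under `ω ↦ z` since it is inseparable), and the factor is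
`(det(1 - π q^(-s) A) det(1 - π' q^(-s) A'))⁻¹`, where `A`, `A'` are the averages of the two images of `c(σ)` in
`GL_n(ℂ)` for `τ`.  If `q ≡ 2` modulo `3`, then the Frobenius elements interchange the two lines, their
squares act on `V_ℓ(E)` by `-q`, and the factor is `det(1 + q^(1 - 2 s) A A')⁻¹` (`factor`).

## The realisations

Let `Λ` be the period lattice of `dx / (2 y + 1)`; it has the invariants `g₂ = 0`, `g₃ = -1`
(`℘(z) = x`, `℘'(z) = 2 y + 1`), and `ω` acts on it as the multiplication by `e(z)`, for an embedding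
`e : F → ℂ`.  Let `k ∈ Gal(F/ℚ)` be the complex conjugation for `e`, and `a ∈ Λ` a nonzero real period.
* `H_B(N(1)) = (Λ ⊗ T)^n ⊗ ℚ = a ⊗ T[ω]^n`, and `F_∞` is `a ⊗ x ↦ a ⊗ c*(k) x̄`.  Therefore the `T`-bases of
  `H_B⁺` are the families of the `a ⊗ X_j` for the columns `X_j` of the matrices `X ∈ GL_n(T[ω])` with
  `c*(k) X̄ = X`, that is, `X̄ = c(k)† X` (`IsBetti`).
* `H_dR(N(1)) / Fil⁰` is the space over `T` of the `u ∈ (Lie(E) ⊗ F ⊗ T)^n` with `c*(σ) σ(u) = u` for all
  `σ`, where `ω` is `z ⊗ 1`, and its bases are the matrices `B ∈ GL_n(F ⊗ T)` with `σ(B) = c(σ)† B`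
  (`IsDeRham`; by descent these vectors contain a basis of `(F ⊗ T)^n`, and every basis over `T` of them is
  one).
* The comparison is `a ⊗ x ↦ a x` for the integration of `dx / (2 y + 1)`, and so the matrix of `α⁺` at
  `τ` is `B_τ⁻¹ a X_τ` with `B_τ = (e ⊗ τ)(B)` and `X_τ` the image of `X` under `τ`, `ω ↦ e(z)` (`alpha`).

## The proof

Let `K = ℚ(√-3)`.  `L(N_τ, s)` is the function over `K` of the Hecke character of `E` times the dual of
`c_τ`, a representation of `Gal(F/K)` (`R/A1` to `R/A8`).  By our previous work (`D/A` to `D/M3`)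
we know the action of `Aut(ℂ/K)` on the values at `1` for ALL the representations of `Gal(F/K)`: Hecke's
formula by Eisenstein-Kronecker numbers, the Galois action on the division values of `℘` (the
Kronecker congruence and the density of primes), Brauer's theorem, and the nonvanishing at `1` for all
the characters of the tower (library), which allows one to divide by values at the central point.  It
is the inverse of the action on `det(B_τ)`, and everything is compatible with the complex conjugation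
(`W/A2`); then one descends from `T ⊗ ℂ` to `T`.  The bases exist by `W/A3`, `W/A4`.
-/

set_option autoImplicit false
set_option linter.unusedSectionVars false

open NumberField IsDedekindDomain WeierstrassCurve TensorProduct
open scoped Classical Matrix

namespace Pool.Agent.Results.MP_cd171c_nt.EveryMotiveInTheTowers

/-! ### The fields -/

/-- Above the prime numbers other than three, only primes modulo which `2` is not a cube ramify in
`L/M`: if `σ ≠ 1` lies in the inertia group of the prime `w` of `L`, and `w` does not divide three, then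
`2` is not a cube modulo the prime of `M` below `w`. -/
def GoodRam (M L : Type) [Field M] [NumberField M] [Field L] [NumberField L] [Algebra M L] : Prop :=
  ∀ (w : HeightOneSpectrum (𝓞 L)) (σ : Gal(L/M)), (3 : 𝓞 L) ∉ w.asIdeal →
    (∀ x : 𝓞 L, σ • x - x ∈ w.asIdeal) → σ ≠ 1 → ∀ α : 𝓞 M, α ^ 3 - 2 ∉ w.asIdeal.under (𝓞 M)

/-! ### The rings `R[ω]` and the cocycles -/

/-- The ring `R[ω]` with `ω² = -1 - ω`; the element `⟨a, b⟩` is `a + b ω`. -/
abbrev Eis (R : Type) [CommRing R] : Type := QuadraticAlgebra R (-1) (-1)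

section rings

variable {R A : Type} [CommRing R] [CommRing A]

/-- The element `τ(a) + τ(b) t`, for `a + b ω` in `R[ω]`. -/
def evl (τ : R →+* A) (t : A) (x : Eis R) : A := τ x.re + τ x.im * t

/-- The bar `a + b ω ↦ a + b ω² = (a - b) - b ω`. -/
def bar (x : Eis R) : Eis R := ⟨x.re - x.im, -x.im⟩

end rings

/-- The cube root of unity `(-1 + √3 i) / 2`. -/
noncomputable def om : ℂ := ⟨-1 / 2, Real.sqrt 3 / 2⟩

/-- The complex conjugate cube root of unity. -/
noncomputable def om' : ℂ := (starRingEnd ℂ) om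

section defs

variable {F : Type} [Field F] [NumberField F] {T : Type} [Field T] [NumberField T] {n : ℕ}

/-- The action of `σ` on `T[ω]`, where `ω` corresponds to the cube root of unity `z` of `F`: the
identity if `σ z = z`, and the bar otherwise. -/
noncomputable def act (z : 𝓞 F) (σ : Gal(F/ℚ)) (x : Eis T) : Eis T := if σ • z = z then x else bar x

/-- `c` is a cocycle with values in `GL_n(T[ω])`. -/
structure Cocycle (z : 𝓞 F) (c : Gal(F/ℚ) → Matrix (Fin n) (Fin n) (Eis T)) : Prop where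
  one : c 1 = 1
  mul : ∀ σ τ, c (σ * τ) = c σ * (c τ).map (act z σ)

/-! ### The L-function -/

/-- The number of the elements of the residue field of `v`. -/
noncomputable def nm (v : HeightOneSpectrum (𝓞 ℚ)) : ℕ := Nat.card (𝓞 ℚ ⧸ v.asIdeal)

/-- The number of the affine points of `E : y² + y = x³` over the residue field of `v`. -/
noncomputable def pts (v : HeightOneSpectrum (𝓞 ℚ)) : ℕ :=
  Nat.card {p : (𝓞 ℚ ⧸ v.asIdeal) × (𝓞 ℚ ⧸ v.asIdeal) // p.2 ^ 2 + p.2 = p.1 ^ 3}

/-- `w v` is a prime of `F` above `v`, for all the primes `v` of `ℚ`. -/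
def Above (w : HeightOneSpectrum (𝓞 ℚ) → HeightOneSpectrum (𝓞 F)) : Prop :=
  ∀ v, (w v).asIdeal.comap (algebraMap (𝓞 ℚ) (𝓞 F)) = v.asIdeal

/-- `σ` is a Frobenius element at the prime `w` of `F` above `v`: `σ x ≡ x ^ N(v)` modulo `w`. -/
def IsFrobenius (v : HeightOneSpectrum (𝓞 ℚ)) (w : HeightOneSpectrum (𝓞 F)) (σ : Gal(F/ℚ)) : Prop :=
  ∀ x : 𝓞 F, σ • x - x ^ nm v ∈ w.asIdeal

/-- The average of the matrices `f(c σ)` over all the Frobenius elements `σ` at `w`. -/
noncomputable def frob (f : Eis T → ℂ) (c : Gal(F/ℚ) → Matrix (Fin n) (Fin n) (Eis T))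
    (v : HeightOneSpectrum (𝓞 ℚ)) (w : HeightOneSpectrum (𝓞 F)) : Matrix (Fin n) (Fin n) ℂ :=
  ((Nat.card {σ : Gal(F/ℚ) // IsFrobenius v w σ} : ℂ))⁻¹ •
    ∑ σ : {σ : Gal(F/ℚ) // IsFrobenius v w σ}, (c σ).map f

/-- `π` is the Frobenius endomorphism of `E` modulo `w`, an element of `ℤ[ω]`: its norm is `N(v)`, its
trace is `N(v) + 1 - #E(𝔽_v)`, and it is zero modulo `w` under `ω ↦ z`. -/
def IsFrobEnd (z : 𝓞 F) (v : HeightOneSpectrum (𝓞 ℚ)) (w : HeightOneSpectrum (𝓞 F)) (π : Eis ℤ) :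
    Prop :=
  π.re ^ 2 - π.re * π.im + π.im ^ 2 = nm v ∧ 2 * π.re - π.im = (nm v : ℤ) - pts v ∧
    evl (Int.castRingHom (𝓞 F)) z π ∈ w.asIdeal

/-- `π v` is the Frobenius endomorphism for all the primes `v` of `ℚ` with `N(v) ≡ 1` modulo `3`. -/
def FrobEnd (z : 𝓞 F) (w : HeightOneSpectrum (𝓞 ℚ) → HeightOneSpectrum (𝓞 F))
    (π : HeightOneSpectrum (𝓞 ℚ) → Eis ℤ) : Prop :=
  ∀ v, (3 : 𝓞 ℚ) ∉ v.asIdeal → nm v % 3 = 1 → IsFrobEnd z v (w v) (π v)

/-- The local factor of `L(N_τ, s)` at `v`: `1` if `v` divides `3`;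
`(det(1 - π N(v)^(-s) A) det(1 - π' N(v)^(-s) A'))⁻¹` if `N(v) ≡ 1` modulo `3`; and
`det(1 + N(v)^(1 - 2 s) A A')⁻¹` otherwise.  Here `A` and `A'` are the averages over the Frobenius
elements `σ` of the images of `c σ` under `τ` and `ω ↦ om`, `ω ↦ om'`. -/
noncomputable def factor (c : Gal(F/ℚ) → Matrix (Fin n) (Fin n) (Eis T)) (τ : T →+* ℂ) (π : Eis ℤ)
    (v : HeightOneSpectrum (𝓞 ℚ)) (w : HeightOneSpectrum (𝓞 F)) (s : ℂ) : ℂ :=
  if (3 : 𝓞 ℚ) ∈ v.asIdeal then 1 else if nm v % 3 = 1 then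
    (Matrix.det (1 - (evl (Int.castRingHom ℂ) om π * (nm v : ℂ) ^ (-s)) • frob (evl τ om) c v w) *
      Matrix.det (1 - (evl (Int.castRingHom ℂ) om' π * (nm v : ℂ) ^ (-s)) •
        frob (evl τ om') c v w))⁻¹ else
    (Matrix.det (1 + ((nm v : ℂ) ^ (1 - 2 * s)) •
      (frob (evl τ om) c v w * frob (evl τ om') c v w)))⁻¹

/-- `Φ` is the function `L(N_τ, s)`: it is meromorphic on `ℂ`, analytic at `1` and equal to the Euler
product for `Re s > 3/2`. -/
structure IsL (w : HeightOneSpectrum (𝓞 ℚ) → HeightOneSpectrum (𝓞 F))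
    (π : HeightOneSpectrum (𝓞 ℚ) → Eis ℤ) (c : Gal(F/ℚ) → Matrix (Fin n) (Fin n) (Eis T))
    (τ : T →+* ℂ) (Φ : ℂ → ℂ) : Prop where
  meromorphic : MeromorphicOn Φ Set.univ
  analytic : AnalyticAt ℂ Φ 1
  euler : ∀ s : ℂ, (3 / 2 : ℝ) < s.re →
    HasProd (fun v : HeightOneSpectrum (𝓞 ℚ) => factor c τ (π v) v (w v) s) (Φ s)

/-! ### The realisations -/

/-- The ring homomorphism `e ⊗ τ : F ⊗ T → ℂ`. -/
noncomputable def ev (e : F →+* ℂ) (τ : T →+* ℂ) : F ⊗[ℚ] T →+* ℂ :=
  (Algebra.TensorProduct.lift e.toRatAlgHom τ.toRatAlgHom (fun _ _ => Commute.all _ _) :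
    F ⊗[ℚ] T →ₐ[ℚ] ℂ)

/-- The action `g ⊗ id` of `g` on `F ⊗ T`. -/
noncomputable def gal (g : Gal(F/ℚ)) : F ⊗[ℚ] T →+* F ⊗[ℚ] T :=
  (Algebra.TensorProduct.map (g : F →ₐ[ℚ] F) (AlgHom.id ℚ T) : F ⊗[ℚ] T →ₐ[ℚ] F ⊗[ℚ] T)

/-- The embedding of `T` in `F ⊗ T`. -/
noncomputable def inT : T →+* F ⊗[ℚ] T :=
  (Algebra.TensorProduct.includeRight : T →ₐ[ℚ] F ⊗[ℚ] T)

/-- The columns of `B` are a basis over `T` of `H_dR(N(1)) / Fil⁰`: `B` is invertible over `F ⊗ T`, and
`σ(B) = c(σ)† B`, where `†` is the transposed of the bar, and `ω` is `z ⊗ 1`. -/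
structure IsDeRham (z : 𝓞 F) (c : Gal(F/ℚ) → Matrix (Fin n) (Fin n) (Eis T))
    (B : Matrix (Fin n) (Fin n) (F ⊗[ℚ] T)) : Prop where
  unit : IsUnit B.det
  invariant : ∀ σ, B.map (gal σ) = ((c σ).map fun x => evl inT ((z : F) ⊗ₜ[ℚ] (1 : T)) (bar x))ᵀ * B

/-- `a ⊗ X` is a basis over `T` of `H_B(N(1))⁺`: `X` is invertible over `T[ω]`, and `X̄ = c(k)† X`. -/
structure IsBetti (c : Gal(F/ℚ) → Matrix (Fin n) (Fin n) (Eis T)) (k : Gal(F/ℚ))
    (X : Matrix (Fin n) (Fin n) (Eis T)) : Prop where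
  unit : IsUnit X.det
  invariant : X.map bar = ((c k).map bar)ᵀ * X

/-- `k` is the complex conjugation for the embedding `e` of `F` in `ℂ`. -/
def IsConj (e : F →+* ℂ) (k : Gal(F/ℚ)) : Prop := ∀ x, e (k x) = (starRingEnd ℂ) (e x)

/-- The matrix `B_τ⁻¹ a X_τ` of `α⁺` at the embedding `τ`. -/
noncomputable def alpha (z : 𝓞 F) (a : ℂ) (e : F →+* ℂ) (B : Matrix (Fin n) (Fin n) (F ⊗[ℚ] T))
    (X : Matrix (Fin n) (Fin n) (Eis T)) (τ : T →+* ℂ) : Matrix (Fin n) (Fin n) ℂ :=
  (B.map (ev e τ))⁻¹ * (a • X.map (evl τ (e z)))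

end defs

/-- `a` is a nonzero real element of the lattice of `Λ`. -/
structure IsRealPeriod (Λ : PeriodPair) (a : ℂ) : Prop where
  mem : a ∈ Λ.lattice
  ne : a ≠ 0
  real : (starRingEnd ℂ) a = a

/-! ### The proof -/

section lemmas

variable {F : Type} [Field F] [NumberField F] {T : Type} [Field T] [NumberField T] {n : ℕ}

open Pool.Agent.Y692.QS (toC toC_apply wC)
open Pool.Agent.K7.H65.FP (toC' toC'_apply)
open Pool.Agent.H508.W

theorem act_eq (z : 𝓞 F) (σ : Gal(F/ℚ)) : (act z σ : Eis T → Eis T) = (gT z σ : Et T → Et T) := by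
  funext x
  unfold act
  by_cases h : σ • z = z
  · rw [if_pos h, gT_pos h]
    rfl
  · rw [if_neg h, gT_neg h]
    rfl

theorem coc {z : 𝓞 F} {c : Gal(F/ℚ) → Matrix (Fin n) (Fin n) (Eis T)} (hc : Cocycle z c) :
    CocT z c := ⟨hc.one, fun σ τ => by rw [hc.mul, act_eq]⟩

theorem nm_eq (v : HeightOneSpectrum (𝓞 ℚ)) : nm v = Pool.Agent.Y696.nK v :=
  Pool.Agent.Y696.card_nm v

theorem pts_eq (v : HeightOneSpectrum (𝓞 ℚ)) (h3 : (3 : 𝓞 ℚ) ∉ v.asIdeal) :
    Pool.Agent.W189.NF.aV (Pool.Agent.Y696.E0 ℚ) v = (nm v : ℤ) - pts v :=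
  (Pool.Agent.Results.MP_26073e_nt.EveryForm.pts_eq v h3).1

theorem emb_eq (x : Eis ℤ) : evl (Int.castRingHom ℂ) om x = toC x := by
  rw [toC_apply]
  rfl

theorem emb'_eq (x : Eis ℤ) : evl (Int.castRingHom ℂ) om' x = toC' x := by
  rw [toC'_apply, toC_apply, map_add, map_mul, map_intCast, map_intCast]
  rfl

theorem evl_eq (τ : T →+* ℂ) : (evl τ om : Eis T → ℂ) = tC τ := rfl

theorem evl_eq' (τ : T →+* ℂ) : (evl τ om' : Eis T → ℂ) = tC' τ := rfl

theorem frob_eq (f : Eis T → ℂ) (c : Gal(F/ℚ) → Matrix (Fin n) (Fin n) (Eis T))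
    (v : HeightOneSpectrum (𝓞 ℚ)) (w : HeightOneSpectrum (𝓞 F)) :
    frob f c v w = Pool.Agent.H508.R.mn (fun σ => (c σ).map f) v w := by
  unfold frob Pool.Agent.H508.R.mn IsFrobenius Pool.Agent.H508.R.Frb
  rw [nm_eq]

theorem factor_eq (c : Gal(F/ℚ) → Matrix (Fin n) (Fin n) (Eis T)) (τ : T →+* ℂ) (π : Eis ℤ)
    (v : HeightOneSpectrum (𝓞 ℚ)) (w : HeightOneSpectrum (𝓞 F)) (s : ℂ) :
    factor c τ π v w s = Pool.Agent.H508.R.fm (fA c τ) (fB c τ) π v w s := by
  unfold factor Pool.Agent.H508.R.fm fA fB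
  rw [emb_eq, emb'_eq, frob_eq, frob_eq, nm_eq, evl_eq, evl_eq']

end lemmas

/-- **Deligne's conjecture for every motive over `ℚ`, with coefficients in any number field, which over
`F` becomes isomorphic to a sum of copies of `h¹(E)`, `E : y² + y = x³`.**  There is a lattice `Λ` with
`g₂ = 0`, `g₃ = -1` (the period lattice of `E`), with nonzero real elements, such that the following
holds.  Let `M = ℚ(√-3)` or `M = ℚ(ζ₉)`, let `L/M` be a Galois extension whose degree is a power of two, in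
which no prime of `M` ramifies that is not above three and modulo which `2` is a cube, let `F` be a
subfield of `L` which is Galois over `ℚ` and contains the primitive cube root of unity `z`, let `T` be a number
field and `c` a cocycle of `Gal(F/ℚ)` with values in `GL_n(T[ω])`, and let `N` be the motive over `ℚ`
with coefficients in `T` which is the dual of the form of `h₁(E)^n ⊗ T` given by `c`.  Then
`H_dR(N(1)) / Fil⁰` and `H_B(N(1))⁺` have bases, the Frobenius endomorphisms `π v` exist, and for every choice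
of the primes `w v` of `F` above the primes `v` of `ℚ`: for all the embeddings `τ` of `T`, `L(N_τ, s)`
continues to a meromorphic function on `ℂ` which is analytic and not zero at `1`; and for all the real
periods `a`, all the embeddings `e` of `F` and all the bases, `α⁺` is an isomorphism and there is `l` in
`T` such that `L(N_τ, 1) = det(α⁺)_τ τ(l)` for all `τ`. -/
theorem result : ∃ Λ : PeriodPair, Λ.g₂ = 0 ∧ Λ.g₃ = -1 ∧ (∃ a, IsRealPeriod Λ a) ∧
    ∀ (M L F T : Type) [Field M] [NumberField M] [Field L] [NumberField L] [Algebra M L]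
      [IsGalois M L] [Field F] [NumberField F] [IsGalois ℚ F] [Algebra F L] [Field T]
      [NumberField T],
      (IsCyclotomicExtension {3} ℚ M ∨ IsCyclotomicExtension {9} ℚ M) →
      (∃ n : ℕ, Module.finrank M L = 2 ^ n) → GoodRam M L →
      ∀ (z : 𝓞 F), z * z = -1 - z → ∀ (n : ℕ) (c : Gal(F/ℚ) → Matrix (Fin n) (Fin n) (Eis T)),
        Cocycle z c → (∃ B, IsDeRham z c B) ∧
        (∀ (e : F →+* ℂ) (k : Gal(F/ℚ)), IsConj e k → ∃ X, IsBetti c k X) ∧
        ∀ w : HeightOneSpectrum (𝓞 ℚ) → HeightOneSpectrum (𝓞 F), Above w →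
          (∃ π, FrobEnd z w π) ∧ ∀ π, FrobEnd z w π →
            ∃ Φ : (T →+* ℂ) → ℂ → ℂ, (∀ τ, IsL w π c τ (Φ τ) ∧ Φ τ 1 ≠ 0) ∧
              ∀ a, IsRealPeriod Λ a → ∀ (e : F →+* ℂ) (k : Gal(F/ℚ)), IsConj e k →
                ∀ B, IsDeRham z c B → ∀ X, IsBetti c k X →
                  (∀ τ, IsUnit (alpha z a e B X τ).det) ∧
                  ∃ l : T, ∀ τ, Φ τ 1 = (alpha z a e B X τ).det * τ l := by
  obtain ⟨Λ, Ω, hΛ⟩ := Pool.Agent.Y688.exists_HL
  obtain ⟨⟨a₀, ha1, ha2, ha3⟩, -⟩ := Pool.Agent.H508.D.exists_per hΛ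
  refine ⟨Λ, hΛ.g2, hΛ.g3, ⟨a₀, ha1, ha2, ha3⟩, ?_⟩
  intro M L F T _ _ _ _ _ _ _ _ _ _ _ _ hM hn hg z hz n c hc
  have hG : Pool.Agent.K7.H56.P.Gd M L := Pool.Agent.K7.H56.P.gd_of fun w hw h3 α hα => by
    obtain ⟨σ, hσ, hin⟩ := hw
    refine hg w σ (fun h => h3 ?_) hin hσ α hα
    show algebraMap (𝓞 M) (𝓞 L) 3 ∈ w.asIdeal
    rw [map_ofNat]
    exact h
  obtain ⟨hf, hr, -⟩ := Pool.Agent.K7.H70.AW.family (N := M) (L := L) hM hn hG
  have hQ : Pool.Agent.K7.H70.SE.GoodG ℚ := hf.good ℚ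
  have hc' : Pool.Agent.H508.W.CocT z c := coc hc
  have hDR : ∀ B, IsDeRham z c B ↔ Pool.Agent.H508.W.DRT hz c B := fun B =>
    ⟨fun h => ⟨h.unit, h.invariant⟩, fun h => ⟨h.unit, h.inv⟩⟩
  have hBT : ∀ k X, IsBetti c k X ↔ Pool.Agent.H508.W.BT c k X := fun k X =>
    ⟨fun h => ⟨h.unit, h.invariant⟩, fun h => ⟨h.unit, h.inv⟩⟩
  refine ⟨?_, fun e k hk => ?_, fun w hw => ⟨?_, fun π hπ => ?_⟩⟩
  · obtain ⟨B, hB⟩ := Pool.Agent.H508.W.exists_DRT hz hc'
    exact ⟨B, (hDR B).2 hB⟩
  · obtain ⟨X, hX⟩ := Pool.Agent.H508.W.exists_BT hz hc' (e := e) hk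
    exact ⟨X, (hBT k X).2 hX⟩
  · have h1 : ∀ v : HeightOneSpectrum (𝓞 ℚ), ∃ x : Eis ℤ, (3 : 𝓞 ℚ) ∉ v.asIdeal → nm v % 3 = 1 →
        IsFrobEnd z v (w v) x := by
      intro v
      by_cases h3 : (3 : 𝓞 ℚ) ∉ v.asIdeal ∧ nm v % 3 = 1
      · obtain ⟨x, h1, h2, h4⟩ := Pool.Agent.K7.H65.FP.exists_pi hz (hw v) h3.1 h3.2
        exact ⟨x, fun _ _ => ⟨h1, h2, h4⟩⟩
      · exact ⟨0, fun a b => absurd ⟨a, b⟩ h3⟩
    choose π hπ using h1
    exact ⟨π, hπ⟩
  have hw' : ∀ v, Pool.Agent.Y696.und0 ℚ (w v) = v := fun v => HeightOneSpectrum.ext (hw v)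
  have hx : Pool.Agent.H508.R.Frd z w π := ⟨fun v h3 hq => by
    rw [← nm_eq] at hq
    obtain ⟨a1, a2, a3⟩ := hπ v h3 hq
    refine ⟨?_, ?_, a3⟩
    · rw [← nm_eq, ← a1]
      rfl
    · rw [pts_eq v h3, a2]⟩
  obtain ⟨ι, hι⟩ := Pool.Agent.H508.R.exists_io hz
  choose Φ h1 h2 h3 h4 h5 using fun τ : T →+* ℂ =>
    Pool.Agent.H508.R.mat_main hf hr hQ hz hι hw' (hc'.semiM hz τ) hx
  refine ⟨Φ, fun τ => ⟨⟨h1 τ, h2 τ, fun s hs => ?_⟩, h4 τ⟩, ?_⟩
  · refine (h3 τ s hs).congr_fun fun v => ?_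
    exact factor_eq c τ (π v) v (w v) s
  intro a ha e k hk B hB X hX
  have hB' := (hDR B).1 hB
  have hX' := (hBT k X).1 hX
  have hdet : ∀ τ, (alpha z a e B X τ).det = Pool.Agent.H508.W.pT hz a e B.det X.det n τ := fun τ => by
    unfold alpha Pool.Agent.H508.W.pT
    have e1 : (B.map (ev e τ)).det = Pool.Agent.H508.D.ev e τ B.det :=
      Pool.Agent.H508.D.map_det (Pool.Agent.H508.D.ev e τ) B
    have e2 : (X.map (evl τ (e z))).det = Pool.Agent.H508.W.tE hz e τ X.det :=
      Pool.Agent.H508.D.map_det (Pool.Agent.H508.W.tE hz e τ) X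
    rw [Matrix.det_mul, Matrix.det_nonsing_inv, Ring.inverse_eq_inv', e1, Matrix.det_smul,
      Fintype.card_fin, e2, div_eq_mul_inv, mul_comm]
  obtain ⟨l, hl⟩ := Pool.Agent.H508.W.period_T (wo := w) hf hr hQ hz hι hw' hc' hx hΛ ha.mem ha.ne
    ha.real hk hB' hX'
  have hval : ∀ τ, Φ τ 1 = Pool.Agent.H508.W.yT ι w c τ := fun τ => h5 τ
  refine ⟨fun τ => ?_, l, fun τ => ?_⟩
  · rw [hdet]
    unfold Pool.Agent.H508.W.pT
    exact (div_ne_zero (mul_ne_zero (pow_ne_zero _ ha.ne) (hX'.unit.map _).ne_zero)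
      (hB'.unit.map _).ne_zero).isUnit
  · rw [hdet, hval, hl τ]

end Pool.Agent.Results.MP_cd171c_nt.EveryMotiveInTheTowers
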