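import Pool.Graph.R_pool_sql_team_seeded_2aa45f1a.Q193.LT.Crit
import Pool.Agent.H502.HQ.Main
import Pool.Agent.H502.HQ.Lin

/-!
# Critical values of motives of odd weight and harmonic quadruples of points on the projective line

Four different points `p, q, r, s` of the projective line form a harmonic quadruple `(p, q; r, s)` if
their cross ratio is `-1`. For a finite set `H` of quadruples of the labels of the `n + 3` points
`∞, 0, 1, x_1, …, x_n` let `X_H` be the space of all `n`-tuples of points `x_i` of the projective line,
different from each other and from `∞, 0, 1`, such that the quadruples in `H` are harmonic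
(`harmS ℚ n H`). It is a closed subscheme of the moduli space `M_{0, n+3}` of `n + 3` different points
of the projective line, defined over `ℚ` by equations `x_i + x_j = 2 x_k` and
`(x_i - x_k) (x_j - x_l) + (x_i - x_l) (x_j - x_k) = 0`, where the letters may also stand for `0`, `1`.

Let `F` be a number field and `M` the category of motives over `ℚ` for absolute Hodge cycles with
coefficients in `F` all of whose weights are odd, a semisimple abelian category with Tate twists
`N ↦ N(a)`. For a separated `ℚ`-scheme `X` of finite type let `D.H i X` be the object
`⨁_{w odd} Gr^W_w H^i_c(X) ⊗ F` of `M`, the odd part of the graded object of the weight filtration of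
the cohomology with compact supports; for smooth projective `X` it is `h^i(X) ⊗ F` for odd `i` and zero
for even `i`. It is zero for `X = Spec ℚ`. As the weight filtration is strict, the long exact sequence
of a closed subscheme and its open complement gives an exact sequence in `M`.

For an object `N` of `M` let `C.crit N` say that `N` is pure and that `0` is critical for `N`; it is known
that the map `α⁺_N` is then an isomorphism. Let `C.L N = L(N, 0)` and let `C.c N = c⁺(N, 0)` be a
representative of Deligne's period; both are elements of `F ⊗ ℂ`. An integer `s₀` is critical for `N` if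
and only if `0` is critical for `N(s₀)`, and the conjecture of question Q1 for `N` and `s₀` is
`Deligne F C (N(s₀))`: `L(N(s₀), 0) = e c⁺(N(s₀), 0)` for some `e ∈ F`. `Facts D (Deligne F C) N` says
that this is true for all direct factors of all Tate twists of `N`. As every pure motive of odd weight
is a direct sum of direct factors of Tate twists of motives `h^i(Y) ⊗ F` (`i` odd), the conjecture of
question Q1 says that `Facts D (Deligne F C) (D.H i Y)` is true for all smooth projective `Y` over `ℚ`
and all `i`.

**Theorem.** (1) For all `d`, the conjecture of question Q1 is true for the critical direct factors of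
the Tate twists of the motives `h^i(Y) ⊗ F`, `i` odd, of all smooth projective varieties `Y` of dimension
at most `d` over `ℚ` if and only if it is true for those of the motives `Gr^W_w H^i_c(X_H) ⊗ F`, `w` odd,
of all smooth integral `X_H` of dimension at most `d` such that all the quadruples in `H` contain `∞` or
`1`. For `d = 1` these are the motives `h^1(A) ⊗ F` of abelian varieties, and the motives
`h^1(C_H) ⊗ F` of the smooth compactifications `C_H` of the curves `X_H`.

(2) Unconditionally, the conjecture is true for these motives of all `X_H` such that all the quadruples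
in `H` contain the point `∞` (they are zero). So two points are enough for all varieties, and one point
gives nothing.

(3) Every domain `A` of finite type over `ℚ` has an element `f ≠ 0` such that `Spec A[1/f]` is
isomorphic to a space `X_H` such that all the quadruples in `H` contain `∞` or `1`.
-/

set_option autoImplicit false

open CategoryTheory CategoryTheory.Limits AlgebraicGeometry Pool.Agent.Y116.UV Pool.Agent.Z125.UN
  Pool.Agent.Q193.LT Pool.Agent.H502.HQ
open scoped TensorProduct

universe v u

namespace Pool.Agent.Results.MP_cd171c_nt.HarmonicQuadruples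

/-- **Critical values of motives of odd weight and harmonic quadruples.** See the explanations
above. -/
theorem result {F : Type} [Field F] [NumberField F] {M : Type u} [Category.{v} M] [Abelian M]
    {D : CompactData ℚ M} (h : IsMotives D) (point : ∀ i, IsZero (D.H i (aff ℚ ℚ)))
    {C : CritData M (F ⊗[ℚ] ℂ)} (hC : IsCrit F C) :
    (∀ d : ℕ, (∀ Y : Sch ℚ, SmoothProj Y → topologicalKrullDim Y.left ≤ d →
        ∀ i, Facts D (Deligne F C) (D.H i Y)) ↔
      ∀ (n : ℕ) (H : Finset (Fin 4 → Fin 3 ⊕ Fin n)), Meets H → Smooth (harmS ℚ n H).hom →
        IsIntegral (harmS ℚ n H).left → topologicalKrullDim (harmS ℚ n H).left ≤ d →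
        ∀ i, Facts D (Deligne F C) (D.H i (harmS ℚ n H))) ∧
    (∀ (n : ℕ) (H : Finset (Fin 4 → Fin 3 ⊕ Fin n)), (∀ h ∈ H, ∃ i, h i = Sum.inl 0) →
      ∀ i, IsZero (D.H i (harmS ℚ n H))) ∧
    ∀ (A : Type) [CommRing A] [IsDomain A] [Algebra ℚ A] [Algebra.FiniteType ℚ A],
      ∃ (f : A) (n : ℕ) (H : Finset (Fin 4 → Fin 3 ⊕ Fin n)), f ≠ 0 ∧ Meets H ∧
        Nonempty (aff ℚ (Localization.Away f) ≅ harmS ℚ n H) := by
  have h2 : (2 : ℚ) ≠ 0 := two_ne_zero
  have hS : IsTateSerre D (Facts D (Deligne F C)) := deligne_serre h.compact h.semisimple hC
  have h1 : ∀ i, Facts D (Deligne F C) (D.H i (aff ℚ ℚ)) := fun i => hS.zero _ (point i)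
  have hP := bnd_compact h.compact hS h1
  refine ⟨fun d => ?_, fun n H hH => ?_, ?_⟩
  · refine Iff.trans ?_ (harm_iff hP h2 frac_rat d)
    exact ⟨fun h' => h.generated d _ hS h', fun h' Y hY hd => h' Y hY.ft hd⟩
  · have hta := h.compact.twAdditive
    have hz : IsTateSerre D (fun N : M => IsZero N) :=
      { zero := fun X hX => hX
        mid := fun f g w hex hX hZ => hex.isZero_of_both_zeros (hX.eq_of_src _ _) (hZ.eq_of_tgt _ _)
        twist := fun a N hN => (D.tw a).map_isZero hN }
    exact harm_lin (bnd_compact h.compact hz point) H hH
  · intro A _ _ _ _
    obtain ⟨f, n, H, hf, hm, ⟨e⟩⟩ := exists_harm h2 A frac_rat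
    exact ⟨f, n, H, hf, hm, ⟨affIso e.symm⟩⟩

end Pool.Agent.Results.MP_cd171c_nt.HarmonicQuadruples
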