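import Pool.Agent.H367.OS.ODic
import Pool.Graph.R_pool_sql_team_seeded_1acbe0a2.Y691.TU.OddDefs

/-!
# Deligne's period conjecture in odd weight and single motives of one sequence of cubics

A relation `r` of size `m` is one of the equations `x_i x_j = x_l`, `x_i + x_j = x_l`, `x_i = 1` with
`i, j, l < m`; the relations are numbered, the number of `r` is `ν(r)` (`relNum`). Let `G_m` be the
following polynomial with integral coefficients (`univG ℤ m`). There are variables `x_i` and `z_ij` for
`i, j < m`, a variable `c_r` for every relation `r`, and variables `y_{r,l}` for all relations `r` and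
`l < (m + 1) 2 ^ ν(r)`. The equations (`eqnG`) are

  `z_ij - x_i x_j`,  `c_r ^ 2 - c_r`,  `c_r ρ_r`,  `(1 - c_r) y_{r,l}`,

where `ρ_r` is the linear polynomial `z_ij - x_l`, `x_i + x_j - x_l` or `x_i - 1` of the relation.
`G_m` is the sum of the equations multiplied by further variables `t_e`, one for each equation. It has
degree three. Let `C_m` be the affine cubic hypersurface `G_m = 1` (`cubG R m` over the ring `R`); it is
smooth over the integers.

Let `F` be a number field and `C` the category of motives for absolute Hodge cycles over `ℚ` with
coefficients in `F`, a semisimple abelian category with Tate twists `M ↦ M(a)`. For a separated scheme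
`X` of finite type over `ℚ` let `D.G w j X = Gr^W_w H^j_c(X)`, with coefficients extended to `F`, as
an object of `C`; for smooth projective `Y` it is `h^j(Y)` if `j = w`, and zero otherwise. `T` are the
Hodge numbers, the period matrices and the values of the `L`-functions at `0`. `DeligneOdd T M` is the
statement of question Q1 for the motive `M` of odd weight (`OddPure`) and the integer `0`: if `0` is
critical for `M`, then `α^+` is an isomorphism and `L(M, 0) ∈ F c^+(M)`. The statement for `M` and the
critical integer `s₀` is the one for the motive `M(s₀)` and `0`.

For `m`, `N`, `i ∈ ℕ` and `t ∈ ℤ` let `e = (m + 1) N + E_m - 1` (`esh m N`), where `E_m` is the number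
of the equations, and let `V_{m,N}^i(t)` (`sgl D m N i t`) be the single motive `Gr^W_{i+2e}
H^{i+2e+1}_c(C_m)(t + e)`, which is pure of the weight `i - 2 t`.

Every motive `M` of odd weight is a direct factor of one motive `h^i(Y)(t)`, for a smooth projective
scheme `Y` over `ℚ` and an odd number `i` (hypothesis `factors`): it is a direct factor of a sum of
motives `h^{i_j}(X_j)(a_j)` of the same weight; take for `Y` the disjoint union of the schemes `X_j ×
ℙ^n`. Nothing is assumed on the `L`-functions, the periods and the Hodge numbers.

**Theorem.** (1) The dictionary for the motives (`Dictionary`). For every smooth projective `Y` over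
`ℚ`, every `d` and all large `m` there is an `e'` such that `h^i(Y)(-e')` is isomorphic to the single
piece `Gr^W_{i+2e'} H^{i+2e'+1}_c(C_m)`, for all `i ≤ d`. For every affine scheme `Spec B` of finite
type over `ℚ` and all large `m` there is an `N` such that `Gr^W_w H^j_c(Spec B)(-e)` is isomorphic to
`Gr^W_{w+2e} H^{j+2e+1}_c(C_m)`, for `0 ≤ w ≤ 2 m + 1` and all `j`; for every separated scheme `X` of
finite type over `ℚ` it is a direct factor.

(2) Every motive `M` of odd weight is a direct factor of one of the single motives `V_{m,N}^i(t)`, `i`
odd, for all large `m`, with the same `i` and `t`.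

(3) The following are equivalent: Deligne's conjecture (`DeligneOdd T`) for all direct factors of the
single motives `V_{m,N}^i(t)`, for all `N`, `t`, all odd `i`, and infinitely many `m`; Deligne's
conjecture for all motives of odd weight over `ℚ` with coefficients in `F`; the conjecture for all
direct factors of all `V_{m,N}^i(t)`, `i` odd.

(4) For every `i` and `t` Deligne's conjecture is true for all direct factors of the motives
`h^i(Y)(t)`, `Y` smooth projective over `ℚ`, if and only if for infinitely many `m` it is true for all
direct factors of the single motives `V_{m,N}^i(t)`, for all `N`.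

(5) `G_m` has integral coefficients and degree at most three, and `C_m` is smooth over all rings.

The hypotheses on the motives are standard (`IsMot`): exact sequences, affine bundles, disjoint unions,
the cohomology of affine spaces, the weights of `H^j_c(X)` are between `0` and `2 dim X`, monomorphisms
split, `Gr^W_w H^j_c(X)` is a direct factor of `h^w(Y)` for some smooth projective `Y` (it is a
subquotient, by the weight spectral sequence), and every smooth projective scheme has an affine bundle
whose total space is affine (Jouanolou).

Idea of the proof. The projection of `C_m` to the affine space with the coordinates `x, z, c, y` is an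
affine bundle over the complement of the zero set `W_m` of the equations. The scheme `W_m` is the
disjoint union, over all sets `s` of relations (`c_r = 1` for `r ∈ s` and `c_r = 0` for the others), of
the products `X_s × 𝔸 ^ ((m + 1) N(s))`, where `X_s` is the affine scheme defined by the relations in
`s` and `N(s) = ∑_{r ∈ s} 2 ^ ν(r)`. The numbers `N(s)` are different, and the weights of the
cohomology of `X_s` are between `0` and `2 m`. So the part of weight `w + 2 (m + 1) N(s)`,
`0 ≤ w ≤ 2 m + 1`, of the cohomology of `W_m` is the twist of the part of weight `w` of the cohomology of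
`X_s`, and it is different from the weight of the cohomology of the affine space. Every affine scheme of
finite type over a prime field is an `X_s`, for all large `m`. The pieces of the cohomology of an
arbitrary scheme are direct factors of those of a disjoint union of affine schemes.

The universal system of relations is the one of helper854 (`Pool.Agent.H854.SQ`).
-/

set_option autoImplicit false

open CategoryTheory CategoryTheory.Limits AlgebraicGeometry Pool.Agent.Y116.UV Pool.Agent.Z125.UN
  Pool.Agent.Q193.LT Pool.Agent.H854.SQ Pool.Agent.H367.OS
open Pool.Agent.Y691.TU (Periods OddPure DeligneOdd)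

universe v u



namespace Pool.Agent.Results.MP_cd171c_nt.OneSequenceOverTheIntegers

/-- **Deligne's conjecture in odd weight and single motives of one sequence of cubic hypersurfaces over
the integers.** See the explanations above. -/
theorem result {F : Type} [Field F] [NumberField F] {C : Type u} [Category.{v} C] [Abelian C]
    {D : Pieces ℚ C} (h : IsMot D) {T : Periods F C}
    (factors : ∀ M : C, OddPure T M → ∃ (Y : Sch ℚ) (i : ℕ) (t : ℤ), SmoothProj Y ∧ Odd i ∧
      Factor M ((D.tw t).obj (D.G i i Y))) :
    Dictionary D ∧
    (∀ M : C, OddPure T M → ∃ (i : ℕ) (t : ℤ), Odd i ∧ ∀ᶠ m : ℕ in Filter.atTop, ∃ N : ℕ,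
      Factor M (sgl D m N i t)) ∧
    List.TFAE [
      ∃ᶠ m : ℕ in Filter.atTop, ∀ (N i : ℕ) (t : ℤ), Odd i →
        AllFactors (fun M => DeligneOdd T M) (sgl D m N i t),
      ∀ M : C, DeligneOdd T M,
      ∀ (m N i : ℕ) (t : ℤ), Odd i → AllFactors (fun M => DeligneOdd T M) (sgl D m N i t)] ∧
    (∀ (i : ℕ) (t : ℤ), (∀ Y : Sch ℚ, SmoothProj Y →
        AllFactors (fun M => DeligneOdd T M) ((D.tw t).obj (D.G i i Y))) ↔
      ∃ᶠ m : ℕ in Filter.atTop, ∀ N : ℕ,
        AllFactors (fun M => DeligneOdd T M) (sgl D m N i t)) ∧
    ∀ m : ℕ, (univG ℤ m).totalDegree ≤ 3 ∧
      ∀ (R : Type) [CommRing R], MvPolynomial.map (Int.castRingHom R) (univG ℤ m) = univG R m ∧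
        Smooth (cubG R m).hom := by
  have hk := isPrimeField_rat
  refine ⟨h.dictionary hk, ?_, ?_, h.degree_sgl hk (allFactors_closed _), cubG_facts⟩
  · intro M hM
    obtain ⟨Y, i, t, hY, hi, hF⟩ := factors M hM
    exact ⟨i, t, hi, h.factor_sgl hk hY hF⟩
  · have h1 := h.all_sgl hk (Q := fun M => DeligneOdd T M) (I := fun i _ => Odd i)
      fun M hM => by
        have hA : OddPure T M := by
          by_contra hA
          exact hM fun g => absurd g hA
        exact factors M hA
    tfae_have 1 → 2 := h1.mpr
    tfae_have 2 → 3 := fun g _ _ _ _ _ R _ => g R
    tfae_have 3 → 1 := fun g => Filter.Frequently.of_forall g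
    tfae_finish

end Pool.Agent.Results.MP_cd171c_nt.OneSequenceOverTheIntegers
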